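import Pool.Graph.R_seed8.Results.MP_ad51a3_an.RadialWeights

open MeasureTheory Set Metric Complex Filter Topology
open scoped ENNReal Real

namespace Pool.Agent.Results.MP_ad51a3_an.DensityCharacterisation

open Pool.Agent.Results.MP_ad51a3_an.MinSphericalArea (lintegral_image_complex ClassS)
open Pool.Agent.Results.MP_ad51a3_an.RadialWeights (lintegral_scale main_disc main_unit)

/-- The normalised Möbius map `z ↦ z / (1 - a z)`. -/
noncomputable def mob (a : ℝ) (z : ℂ) : ℂ := z / (1 - a * z)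

lemma one_sub_ne {a : ℝ} (ha : 0 < a) (ha1 : a < 1) {z : ℂ} (hz : ‖z‖ < 1) :
    (1 - a * z : ℂ) ≠ 0 := by
  intro h
  have h1 : (a : ℂ) * z = 1 := by linear_combination -h
  have h2 : ‖(a : ℂ) * z‖ = 1 := by rw [h1]; simp
  rw [norm_mul, Complex.norm_real, Real.norm_of_nonneg ha.le] at h2
  nlinarith [norm_nonneg z]

lemma mob_image {a ρ : ℝ} (ha : 0 < a) (ha1 : a < 1) (hρ1 : ρ ≤ 1) :
    mob a '' ball 0 ρ = {z : ℂ | ‖z‖ < ρ * ‖1 + a * z‖} := by
  ext z
  constructor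
  · rintro ⟨u, hu, rfl⟩
    have hu' : ‖u‖ < ρ := by simpa using hu
    have hne := one_sub_ne ha ha1 (hu'.trans_le hρ1)
    have h1 : (1 + a * (u / (1 - a * u)) : ℂ) = 1 / (1 - a * u) := by field_simp; ring
    simp only [mem_ofPred_eq, mob]
    rw [h1, norm_div, norm_div, norm_one, mul_one_div]
    exact div_lt_div_of_pos_right hu' (norm_pos_iff.mpr hne)
  · intro hz
    simp only [mem_ofPred_eq] at hz
    have hne : (1 + a * z : ℂ) ≠ 0 := by
      intro h
      rw [h] at hz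
      simp only [norm_zero, mul_zero] at hz
      linarith [norm_nonneg z]
    refine ⟨z / (1 + a * z), ?_, ?_⟩
    · simp only [mem_ball, dist_zero_right, norm_div]
      rw [div_lt_iff₀ (norm_pos_iff.mpr hne)]
      exact hz
    · have h2 : (1 - a * (z / (1 + a * z)) : ℂ) = 1 / (1 + a * z) := by field_simp; ring
      simp only [mob]
      rw [h2, div_div_div_cancel_right₀ hne, div_one]

lemma mob_diff {a : ℝ} (ha : 0 < a) (ha1 : a < 1) : DifferentiableOn ℂ (mob a) (ball 0 1) := by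
  intro z hz
  have hz' : ‖z‖ < 1 := by simpa using hz
  have hne := one_sub_ne ha ha1 hz'
  have h1 : DifferentiableAt ℂ (fun z : ℂ => z) z := differentiableAt_id
  have h2 : DifferentiableAt ℂ (fun z : ℂ => 1 - (a:ℂ) * z) z := by fun_prop
  exact (h1.div h2 hne).differentiableWithinAt

lemma mob_inj {a : ℝ} (ha : 0 < a) (ha1 : a < 1) : InjOn (mob a) (ball 0 1) := by
  intro u hu v hv h
  have hu' := one_sub_ne ha ha1 (show ‖u‖ < 1 by simpa using hu)
  have hv' := one_sub_ne ha ha1 (show ‖v‖ < 1 by simpa using hv)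
  simp only [mob] at h
  rw [div_eq_div_iff hu' hv'] at h
  linear_combination h

lemma mob_zero (a : ℝ) : mob a 0 = 0 := by simp [mob]

lemma mob_deriv (a : ℝ) : deriv (mob a) 0 = 1 := by
  have h : HasDerivAt (fun z : ℂ => z / (1 - a * z))
      ((1 * (1 - a * 0) - 0 * (-(a * 1))) / (1 - a * 0) ^ 2) 0 :=
    (hasDerivAt_id (0:ℂ)).div (((hasDerivAt_id (0:ℂ)).const_mul (a:ℂ)).const_sub 1) (by simp)
  have := h.deriv
  simp only [mul_zero, sub_zero, mul_one, zero_mul, one_pow, div_one] at this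
  exact this

/-- The involution which exchanges the two differences. -/
noncomputable def inv0 (a : ℝ) (z : ℂ) : ℂ := -z / (1 + a * z)

lemma one_add_ne {a : ℝ} (ha : 0 < a) (ha1 : a < 1) {z : ℂ} (hz : ‖z‖ < 1) :
    (1 + a * z : ℂ) ≠ 0 := by
  have := one_sub_ne ha ha1 (z := -z) (by simpa using hz)
  intro h
  apply this
  linear_combination h

lemma one_add_inv0 {a : ℝ} {z : ℂ} (hne : (1 + a * z : ℂ) ≠ 0) :
    (1 + a * inv0 a z : ℂ) = 1 / (1 + a * z) := by
  simp only [inv0]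
  field_simp
  ring

lemma inv0_inv0 {a : ℝ} {z : ℂ} (hne : (1 + a * z : ℂ) ≠ 0) : inv0 a (inv0 a z) = z := by
  have h := one_add_inv0 hne
  have : inv0 a (inv0 a z) = -(inv0 a z) / (1 + a * inv0 a z) := rfl
  rw [this, h]
  simp only [inv0]
  rw [neg_div (1 + (a:ℂ) * z) z, neg_neg, div_div_div_cancel_right₀ hne, div_one]

/-- The image of the disc. -/
def BB (a ρ : ℝ) : Set ℂ := {z : ℂ | ‖z‖ < ρ * ‖1 + a * z‖}

lemma BB_ne {a ρ : ℝ} {z : ℂ} (hz : z ∈ BB a ρ) : (1 + a * z : ℂ) ≠ 0 := by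
  intro h
  simp only [BB, mem_ofPred_eq] at hz
  rw [h] at hz
  simp only [norm_zero, mul_zero] at hz
  linarith [norm_nonneg z]

lemma isOpen_BB (a ρ : ℝ) : IsOpen (BB a ρ) := by
  apply isOpen_lt <;> fun_prop

lemma inv0_image {a ρ : ℝ} (ha : 0 < a) (ha1 : a < 1) (hρ1 : ρ ≤ 1) :
    inv0 a '' (BB a ρ \ ball 0 ρ) = ball 0 ρ \ BB a ρ := by
  ext z
  constructor
  · rintro ⟨u, ⟨hu1, hu2⟩, rfl⟩
    have hne := BB_ne hu1
    have hpos : 0 < ‖(1 + a * u : ℂ)‖ := norm_pos_iff.mpr hne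
    have hu1' : ‖u‖ < ρ * ‖(1 + a * u : ℂ)‖ := hu1
    have hu2' : ρ ≤ ‖u‖ := by simpa using hu2
    have hn : ‖inv0 a u‖ = ‖u‖ / ‖(1 + a * u : ℂ)‖ := by simp [inv0]
    refine ⟨?_, ?_⟩
    · simp only [mem_ball, dist_zero_right]
      rw [hn, div_lt_iff₀ hpos]
      exact hu1'
    · intro h
      have h' : ‖inv0 a u‖ < ρ * ‖(1 + a * inv0 a u : ℂ)‖ := h
      rw [one_add_inv0 hne, hn, norm_div, norm_one, mul_one_div,
        div_lt_div_iff_of_pos_right hpos] at h'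
      linarith
  · rintro ⟨hz1, hz2⟩
    have hz1' : ‖z‖ < ρ := by simpa using hz1
    have hz2' : ρ * ‖(1 + a * z : ℂ)‖ ≤ ‖z‖ := by simpa [BB] using hz2
    have hne := one_add_ne ha ha1 (hz1'.trans_le hρ1)
    have hpos : 0 < ‖(1 + a * z : ℂ)‖ := norm_pos_iff.mpr hne
    have hn : ‖inv0 a z‖ = ‖z‖ / ‖(1 + a * z : ℂ)‖ := by simp [inv0]
    refine ⟨inv0 a z, ⟨?_, ?_⟩, inv0_inv0 hne⟩
    · show ‖inv0 a z‖ < ρ * ‖(1 + a * inv0 a z : ℂ)‖
      rw [one_add_inv0 hne, hn, norm_div, norm_one, mul_one_div,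
        div_lt_div_iff_of_pos_right hpos]
      exact hz1'
    · simp only [mem_ball, dist_zero_right, not_lt]
      rw [hn, le_div_iff₀ hpos]
      exact hz2'

lemma diff_eq {a ρ : ℝ} (ha : 0 < a) (ha1 : a < 1) (hρ1 : ρ ≤ 1)
    (w : ℝ → ℝ≥0∞) :
    ∫⁻ z in ball 0 ρ \ BB a ρ, w ‖z‖ =
      ∫⁻ z in BB a ρ \ ball 0 ρ,
        ENNReal.ofReal ((‖(1 + a * z : ℂ)‖ ^ 4)⁻¹) * w (‖z‖ / ‖(1 + a * z : ℂ)‖) := by
  have hm : MeasurableSet (BB a ρ \ ball 0 ρ) :=
    (isOpen_BB a ρ).measurableSet.diff measurableSet_ball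
  rw [← inv0_image ha ha1 hρ1, lintegral_image_complex hm (g' := fun z => -1 / (1 + a * z) ^ 2)]
  · apply setLIntegral_congr_fun hm
    intro z hz
    have hne := BB_ne hz.1
    have hn : ‖inv0 a z‖ = ‖z‖ / ‖(1 + a * z : ℂ)‖ := by simp [inv0]
    simp only [hn]
    congr 2
    rw [norm_div, norm_neg, norm_one, norm_pow]
    ring
  · intro z hz
    have hne := BB_ne hz.1
    have h : HasDerivAt (fun z : ℂ => -z / (1 + a * z))
        (((-1) * (1 + a * z) - (-z) * (a * 1)) / (1 + a * z) ^ 2) z :=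
      (hasDerivAt_id z).neg.div (((hasDerivAt_id z).const_mul (a:ℂ)).const_add 1) hne
    convert h using 1
    congr 1
    ring
  · intro u hu v hv h
    have h1 := inv0_inv0 (BB_ne hu.1)
    have h2 := inv0_inv0 (BB_ne hv.1)
    rw [← h1, ← h2, h]

/-- The positions of the two points which are compared. -/
lemma pts {ρ : ℝ} (hρ : 0 < ρ) (hρ1 : ρ < 1) {δ : ℝ} (hδ : 0 < δ) {a : ℝ} (ha : 0 < a)
    (hlt1 : a < δ / 2) (hlt2 : a < 1 / 2) {z : ℂ} (hz : z ∈ BB a ρ \ ball 0 ρ) :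
    0 < ‖z‖ / ‖(1 + a * z : ℂ)‖ ∧ ρ - δ < ‖z‖ / ‖(1 + a * z : ℂ)‖ ∧
    ‖z‖ / ‖(1 + a * z : ℂ)‖ < ρ ∧ ρ ≤ ‖z‖ ∧ ‖z‖ < ρ + δ ∧
    ENNReal.ofReal ((‖z‖ / ‖(1 + a * z : ℂ)‖) ^ 4) =
        ENNReal.ofReal (‖z‖ ^ 4) * ENNReal.ofReal ((‖(1 + a * z : ℂ)‖ ^ 4)⁻¹) := by
  have ha1 : a < 1 := by linarith
  have hρa : ρ * a < 1 / 2 := by nlinarith
  have hne := BB_ne hz.1
  have hpos : 0 < ‖(1 + a * z : ℂ)‖ := norm_pos_iff.mpr hne
  have hz1 : ‖z‖ < ρ * ‖(1 + a * z : ℂ)‖ := hz.1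
  have hz2 : ρ ≤ ‖z‖ := by simpa using hz.2
  have hle : ‖(1 + a * z : ℂ)‖ ≤ 1 + a * ‖z‖ := by
    refine (norm_add_le _ _).trans ?_
    rw [norm_one, norm_mul, Complex.norm_real, Real.norm_of_nonneg ha.le]
  have hz3 : ‖z‖ * (1 - ρ * a) < ρ := by nlinarith
  have hz4 : ‖z‖ < 2 := by nlinarith [norm_nonneg z]
  have hz5 : ‖z‖ < ρ + δ := by
    have h1 : a * ‖z‖ < δ := by nlinarith [norm_nonneg z]
    have h2 : ρ * (a * ‖z‖) < δ := by
      have h3 : 0 ≤ a * ‖z‖ := by positivity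
      nlinarith
    nlinarith
  have hN : ‖(1 + a * z : ℂ)‖ < 1 + 2 * a := by nlinarith
  have hr1 : ‖z‖ / ‖(1 + a * z : ℂ)‖ < ρ := by
    rw [div_lt_iff₀ hpos]
    exact hz1
  have hr0 : 0 < ‖z‖ / ‖(1 + a * z : ℂ)‖ := div_pos (hρ.trans_le hz2) hpos
  have hr2 : ρ - δ < ‖z‖ / ‖(1 + a * z : ℂ)‖ := by
    rw [lt_div_iff₀ hpos]
    rcases le_or_gt (ρ - δ) 0 with h | h
    · nlinarith
    · nlinarith
  refine ⟨hr0, hr2, hr1, hz2, hz5, ?_⟩
  rw [← ENNReal.ofReal_mul (by positivity), div_pow, div_eq_mul_inv]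

/-- If `r ^ 4 * w r` is constant near `ρ`, then small Möbius maps do not change the area. -/
theorem mob_eq {w : ℝ → ℝ≥0∞} {ρ : ℝ} (hρ : 0 < ρ) (hρ1 : ρ < 1) {δ : ℝ} (hδ : 0 < δ)
    (hcon : ∀ r s, 0 < r → ρ - δ < r → r < ρ → ρ ≤ s → s < ρ + δ →
      ENNReal.ofReal (s ^ 4) * w s = ENNReal.ofReal (r ^ 4) * w r)
    {a : ℝ} (ha : 0 < a) (hlt1 : a < δ / 2) (hlt2 : a < 1 / 2) :
    ∫⁻ z in mob a '' ball 0 ρ, w ‖z‖ = ∫⁻ z in ball (0:ℂ) ρ, w ‖z‖ := by
  have ha1 : a < 1 := by linarith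
  rw [show mob a '' ball 0 ρ = BB a ρ from mob_image ha ha1 hρ1.le]
  have hmB : MeasurableSet (BB a ρ) := (isOpen_BB a ρ).measurableSet
  have hmD : MeasurableSet (ball (0:ℂ) ρ) := measurableSet_ball
  have hm : MeasurableSet (BB a ρ \ ball 0 ρ) := hmB.diff hmD
  have e1 := lintegral_inter_add_sdiff (μ := volume) (fun z : ℂ => w ‖z‖) (BB a ρ) hmD
  have e2 := lintegral_inter_add_sdiff (μ := volume) (fun z : ℂ => w ‖z‖) (ball (0:ℂ) ρ) hmB
  rw [← e1, ← e2, inter_comm (ball (0:ℂ) ρ) (BB a ρ), diff_eq ha ha1 hρ1.le]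
  congr 1
  apply setLIntegral_congr_fun hm
  intro z hz
  obtain ⟨hr0, hr2, hr1, hz2, hz5, h4⟩ := pts hρ hρ1 hδ ha hlt1 hlt2 hz
  have key := hcon _ ‖z‖ hr0 hr2 hr1 hz2 hz5
  rw [h4, mul_assoc] at key
  have hz0 : 0 < ‖z‖ := hρ.trans_le hz2
  exact (ENNReal.mul_right_inj (by rw [Ne, ENNReal.ofReal_eq_zero, not_le]; positivity)
    ENNReal.ofReal_ne_top).mp key

/-- **Local necessity.** If `r ^ 4 * w r` decreases strictly at `ρ < 1`, then the identity does not
minimise the `w`-area of `f (|z| < ρ)`, not even among the Möbius maps `z / (1 - a z)`. -/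
theorem mob_lt {w : ℝ → ℝ≥0∞} (hw : Measurable w) {ρ : ℝ} (hρ : 0 < ρ) (hρ1 : ρ < 1)
    {δ : ℝ} (hδ : 0 < δ)
    (hdec : ∀ r s, 0 < r → ρ - δ < r → r < ρ → ρ ≤ s → s < ρ + δ →
      ENNReal.ofReal (s ^ 4) * w s < ENNReal.ofReal (r ^ 4) * w r)
    (hfin : ∫⁻ z in ball (0:ℂ) ρ, w ‖z‖ ≠ ⊤) :
    ∃ a₀ : ℝ, 0 < a₀ ∧ a₀ < 1 ∧ ∀ a : ℝ, 0 < a → a < a₀ →
      ∫⁻ z in mob a '' ball 0 ρ, w ‖z‖ < ∫⁻ z in ball (0:ℂ) ρ, w ‖z‖ := by
  refine ⟨min (δ / 2) (1 / 2), by positivity, ?_, ?_⟩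
  · exact (min_le_right _ _).trans_lt (by norm_num)
  intro a ha hlt
  have hlt1 : a < δ / 2 := hlt.trans_le (min_le_left _ _)
  have hlt2 : a < 1 / 2 := hlt.trans_le (min_le_right _ _)
  have ha1 : a < 1 := by linarith
  have hρa : ρ * a < 1 / 2 := by nlinarith
  rw [show mob a '' ball 0 ρ = BB a ρ from mob_image ha ha1 hρ1.le]
  have hmB : MeasurableSet (BB a ρ) := (isOpen_BB a ρ).measurableSet
  have hmD : MeasurableSet (ball (0:ℂ) ρ) := measurableSet_ball
  have hm : MeasurableSet (BB a ρ \ ball 0 ρ) := hmB.diff hmD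
  -- the pointwise inequality
  have hpt : ∀ z ∈ BB a ρ \ ball 0 ρ, w ‖z‖ <
      ENNReal.ofReal ((‖(1 + a * z : ℂ)‖ ^ 4)⁻¹) * w (‖z‖ / ‖(1 + a * z : ℂ)‖) := by
    intro z hz
    obtain ⟨hr0, hr2, hr1, hz2, hz5, h4⟩ := pts hρ hρ1 hδ ha hlt1 hlt2 hz
    have key := hdec _ ‖z‖ hr0 hr2 hr1 hz2 hz5
    rw [h4, mul_assoc] at key
    exact lt_of_mul_lt_mul_left' key
  have hD : ∫⁻ z in ball 0 ρ \ BB a ρ, w ‖z‖ ≤ ∫⁻ z in ball (0:ℂ) ρ, w ‖z‖ :=
    lintegral_mono_set sdiff_subset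
  have hstrict : ∫⁻ z in BB a ρ \ ball 0 ρ, w ‖z‖ < ∫⁻ z in ball 0 ρ \ BB a ρ, w ‖z‖ := by
    have hD' := hD
    rw [diff_eq ha ha1 hρ1.le] at hD' ⊢
    apply setLIntegral_strict_mono hm
    · -- positive measure
      have hsub : {z : ℂ | ρ < ‖z‖ ∧ ‖z‖ < ρ * ‖(1 + a * z : ℂ)‖} ⊆ BB a ρ \ ball 0 ρ := by
        intro z hz
        exact ⟨hz.2, by simpa using hz.1.le⟩
      have hop : IsOpen {z : ℂ | ρ < ‖z‖ ∧ ‖z‖ < ρ * ‖(1 + a * z : ℂ)‖} := by
        apply IsOpen.and <;> apply isOpen_lt <;> fun_prop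
      have hne : {z : ℂ | ρ < ‖z‖ ∧ ‖z‖ < ρ * ‖(1 + a * z : ℂ)‖}.Nonempty := by
        obtain ⟨x, hx1, hx2⟩ : ∃ x : ℝ, ρ < x ∧ x < ρ / (1 - ρ * a) := by
          apply exists_between
          rw [lt_div_iff₀ (by linarith)]
          have := mul_pos hρ (mul_pos hρ ha)
          linarith
        have hx0 : 0 < x := hρ.trans hx1
        refine ⟨(x : ℂ), ?_, ?_⟩
        · rw [Complex.norm_real, Real.norm_of_nonneg hx0.le]
          exact hx1
        · have h1 : (1 + a * x : ℂ) = ((1 + a * x : ℝ) : ℂ) := by push_cast; ring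
          rw [h1, Complex.norm_real, Complex.norm_real, Real.norm_of_nonneg hx0.le,
            Real.norm_of_nonneg (by positivity)]
          rw [lt_div_iff₀ (by linarith)] at hx2
          nlinarith
      exact fun h0 => (hop.measure_pos volume hne).ne' (measure_mono_null hsub h0)
    · apply Measurable.mul
      · fun_prop
      · apply hw.comp
        fun_prop
    · refine ne_top_of_le_ne_top hfin (le_trans ?_ hD')
      exact setLIntegral_mono' hm (fun z hz => (hpt z hz).le)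
    · exact Eventually.of_forall hpt
  have e1 := lintegral_inter_add_sdiff (μ := volume) (fun z : ℂ => w ‖z‖) (BB a ρ) hmD
  have e2 := lintegral_inter_add_sdiff (μ := volume) (fun z : ℂ => w ‖z‖) (ball (0:ℂ) ρ) hmB
  rw [← e1, ← e2, inter_comm (ball (0:ℂ) ρ) (BB a ρ)]
  apply ENNReal.add_lt_add_left _ hstrict
  exact ne_top_of_le_ne_top hfin (lintegral_mono_set inter_subset_right)

/-! ### Scaling -/

lemma ball_mul {κ ρ : ℝ} (hκ : 0 < κ) :
    ball (0:ℂ) (κ * ρ) = (fun z : ℂ => (κ:ℂ) * z) '' ball 0 ρ := by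
  have hκ' : (κ:ℂ) ≠ 0 := by exact_mod_cast hκ.ne'
  ext z
  simp only [mem_ball, dist_zero_right, mem_image]
  constructor
  · intro h
    refine ⟨(κ:ℂ)⁻¹ * z, ?_, by field_simp⟩
    rw [norm_mul, norm_inv, norm_real, Real.norm_eq_abs, abs_of_pos hκ, inv_mul_lt_iff₀ hκ]
    exact h
  · rintro ⟨x, hx, rfl⟩
    rw [norm_mul, norm_real, Real.norm_eq_abs, abs_of_pos hκ]
    exact (mul_lt_mul_iff_right₀ hκ).mpr hx

lemma mob_mul {κ ρ a : ℝ} (hκ : 0 < κ) :
    mob a '' ball (0:ℂ) (κ * ρ) = (fun z : ℂ => (κ:ℂ) * z) '' (mob (κ * a) '' ball 0 ρ) := by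
  rw [ball_mul hκ, image_image, image_image]
  apply image_congr
  intro z _
  simp only [mob]
  push_cast
  rw [mul_div_assoc]
  congr 2
  ring

lemma measurableSet_mob {a ρ : ℝ} (ha : 0 < a) (ha1 : a < 1) (hρ1 : ρ ≤ 1) :
    MeasurableSet (mob a '' ball (0:ℂ) ρ) := by
  rw [mob_image ha ha1 hρ1]
  exact (isOpen_BB a ρ).measurableSet

lemma area_scale {κ : ℝ} (hκ : 0 < κ) {A : Set ℂ} (hA : MeasurableSet A) (w : ℝ → ℝ≥0∞) :
    ∫⁻ z in (fun z : ℂ => (κ:ℂ) * z) '' A, w ‖z‖ =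
      ENNReal.ofReal (κ ^ 2) * ∫⁻ z in A, w (κ * ‖z‖) := by
  rw [lintegral_scale hκ hA, lintegral_const_mul' _ _ ENNReal.ofReal_ne_top]

/-! ### Local decrease -/

lemma local_decrease {g : ℝ → ℝ} {x g' : ℝ} (h : HasDerivAt g g' x) (hg : g' < 0) :
    ∃ δ > 0, (∀ r, x - δ < r → r < x → g x < g r) ∧ (∀ s, x < s → s < x + δ → g s < g x) := by
  have h1 := (hasDerivAt_iff_tendsto_slope.mp h).eventually (gt_mem_nhds hg)
  rw [eventually_nhdsWithin_iff, Metric.eventually_nhds_iff] at h1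
  obtain ⟨δ, hδ, h2⟩ := h1
  refine ⟨δ, hδ, fun r hr1 hr2 => ?_, fun s hs1 hs2 => ?_⟩
  · have h3 := @h2 r (by rw [Real.dist_eq, abs_lt]; constructor <;> linarith) (ne_of_lt hr2)
    rw [slope_def_field] at h3
    by_contra hcon
    push Not at hcon
    have h4 : 0 ≤ (g r - g x) / (r - x) :=
      div_nonneg_of_nonpos (by linarith) (by linarith)
    linarith
  · have h3 := @h2 s (by rw [Real.dist_eq, abs_lt]; constructor <;> linarith) (ne_of_gt hs1)
    rw [slope_def_field] at h3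
    by_contra hcon
    push Not at hcon
    have h4 : 0 ≤ (g s - g x) / (s - x) := div_nonneg (by linarith) (by linarith)
    linarith

/-! ### Averages -/

/-- The average of the rescaled densities. -/
noncomputable def avg (w : ℝ → ℝ) (T : ℝ) (r : ℝ) : ℝ≥0∞ :=
  ∫⁻ t in Ioc 0 T, ENNReal.ofReal (Real.exp (-4 * t)) * ENNReal.ofReal (w (Real.exp (-t) * r))

lemma measurable_avg {w : ℝ → ℝ} (hw : Measurable w) (T : ℝ) : Measurable (avg w T) := by
  have h1 : Measurable (fun p : ℝ × ℝ => ENNReal.ofReal (Real.exp (-4 * p.2))) := by fun_prop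
  have h2 : Measurable (fun p : ℝ × ℝ => ENNReal.ofReal (w (Real.exp (-p.2) * p.1))) :=
    ENNReal.measurable_ofReal.comp (hw.comp (by fun_prop))
  have h : Measurable (fun p : ℝ × ℝ => ENNReal.ofReal (Real.exp (-4 * p.2)) *
      ENNReal.ofReal (w (Real.exp (-p.2) * p.1))) := h1.mul h2
  exact h.lintegral_prod_right'

lemma lintegral_avg {w : ℝ → ℝ} (hw : Measurable w) (T : ℝ) (A : Set ℂ) :
    ∫⁻ z in A, avg w T ‖z‖ = ∫⁻ t in Ioc 0 T, ENNReal.ofReal (Real.exp (-4 * t)) *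
      ∫⁻ z in A, ENNReal.ofReal (w (Real.exp (-t) * ‖z‖)) := by
  simp only [avg]
  rw [lintegral_lintegral_swap]
  · apply lintegral_congr
    intro t
    rw [lintegral_const_mul' _ _ ENNReal.ofReal_ne_top]
  · apply Measurable.aemeasurable
    have h1 : Measurable (fun p : ℂ × ℝ => ENNReal.ofReal (Real.exp (-4 * p.2))) := by fun_prop
    have h2 : Measurable (fun p : ℂ × ℝ => ENNReal.ofReal (w (Real.exp (-p.2) * ‖p.1‖))) :=
      ENNReal.measurable_ofReal.comp (hw.comp (by fun_prop))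
    exact h1.mul h2

/-- The density in logarithmic coordinates. -/
noncomputable def HH (w : ℝ → ℝ) (τ : ℝ) : ℝ := Real.exp τ ^ 4 * w (Real.exp τ)

lemma continuousOn_HH {w : ℝ → ℝ} (hc : ContinuousOn w (Ioo 0 1)) :
    ContinuousOn (HH w) (Iio 0) := by
  apply ContinuousOn.mul
  · fun_prop
  · apply hc.comp (by fun_prop)
    intro τ hτ
    exact ⟨Real.exp_pos τ, by rw [Real.exp_lt_one_iff]; exact hτ⟩

lemma avg_eq {w : ℝ → ℝ} (h0 : ∀ r, 0 < r → 0 ≤ w r) (hc : ContinuousOn w (Ioo 0 1))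
    {T : ℝ} (hT : 0 < T) {y : ℝ} (hy0 : 0 < y) (hy1 : y < 1) :
    ENNReal.ofReal (y ^ 4) * avg w T y =
      ENNReal.ofReal (∫ τ in (Real.log y - T)..(Real.log y), HH w τ) := by
  have hlog : Real.log y < 0 := Real.log_neg hy0 hy1
  have hint : IntegrableOn (fun t => HH w (Real.log y - t)) (Ioc 0 T) := by
    have hcc : ContinuousOn (fun t => HH w (Real.log y - t)) (Icc 0 T) := by
      apply (continuousOn_HH hc).comp (by fun_prop)
      intro t ht
      show Real.log y - t < 0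
      linarith [ht.1]
    exact (hcc.integrableOn_Icc).mono_set Ioc_subset_Icc_self
  have hnn : ∀ τ, 0 ≤ HH w τ := fun τ => mul_nonneg (by positivity) (h0 _ (Real.exp_pos τ))
  have e1 : ∫ τ in (Real.log y - T)..(Real.log y), HH w τ =
      ∫ t in Ioc 0 T, HH w (Real.log y - t) := by
    rw [← intervalIntegral.integral_of_le hT.le, intervalIntegral.integral_comp_sub_left, sub_zero]
  rw [e1, ofReal_integral_eq_lintegral_ofReal hint (Eventually.of_forall fun t => hnn _)]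
  simp only [avg]
  rw [← lintegral_const_mul' _ _ ENNReal.ofReal_ne_top]
  apply lintegral_congr
  intro t
  have e2 : Real.exp (Real.log y - t) = Real.exp (-t) * y := by
    rw [sub_eq_add_neg, Real.exp_add, Real.exp_log hy0, mul_comm]
  simp only [HH, e2]
  rw [← mul_assoc, ← ENNReal.ofReal_mul (by positivity), ← ENNReal.ofReal_mul (by positivity)]
  congr 1
  rw [mul_pow, ← Real.exp_nat_mul]
  push_cast
  ring_nf

lemma hasDerivAt_avg {w : ℝ → ℝ} (hw : Measurable w) (hc : ContinuousOn w (Ioo 0 1))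
    {T : ℝ} (hT : 0 < T) {x : ℝ} (hx0 : 0 < x) (hx1 : x < 1) :
    ∃ g : ℝ → ℝ, HasDerivAt g
      ((HH w (Real.log x) - HH w (Real.log x - T)) * x⁻¹) x ∧
      ∀ y, 0 < y → y < 1 → g y = ∫ τ in (Real.log y - T)..(Real.log y), HH w τ := by
  have hlog : Real.log x < 0 := Real.log_neg hx0 hx1
  have hmeas : Measurable (HH w) := by
    have h1 : Measurable (fun τ : ℝ => Real.exp τ ^ 4) := by fun_prop
    have h2 : Measurable (fun τ : ℝ => w (Real.exp τ)) := hw.comp (by fun_prop)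
    exact h1.mul h2
  have hcont := continuousOn_HH hc
  have hii : ∀ a b : ℝ, a < 0 → b < 0 → IntervalIntegrable (HH w) volume a b := by
    intro a b ha hb
    apply ContinuousOn.intervalIntegrable
    apply hcont.mono
    intro t ht
    rw [mem_uIcc] at ht
    show t < 0
    rcases ht with h | h <;> linarith [h.1, h.2]
  set c : ℝ := Real.log x - T with hcdef
  have hc0 : c < 0 := by linarith
  have hP : ∀ y : ℝ, y < 0 → HasDerivAt (fun u => ∫ τ in c..u, HH w τ) (HH w y) y := by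
    intro y hy
    exact intervalIntegral.integral_hasDerivAt_right (hii c y hc0 hy)
      (hmeas.stronglyMeasurable.stronglyMeasurableAtFilter)
      (hcont.continuousAt (Iio_mem_nhds hy))
  have hL : HasDerivAt Real.log x⁻¹ x := Real.hasDerivAt_log hx0.ne'
  refine ⟨fun y => (∫ τ in c..(Real.log y), HH w τ) - ∫ τ in c..(Real.log y - T), HH w τ,
    ?_, ?_⟩
  · have h1 := (hP _ hlog).comp x hL
    have h2 := (hP (Real.log x - T) (by linarith)).comp x (hL.sub_const T)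
    have h3 := h1.sub h2
    rw [sub_mul]
    exact h3
  · intro y hy0 hy1
    have hly : Real.log y < 0 := Real.log_neg hy0 hy1
    have := intervalIntegral.integral_add_adjacent_intervals
      (hii c (Real.log y - T) hc0 (by linarith)) (hii (Real.log y - T) (Real.log y) (by linarith) hly)
    linarith

theorem mono_unit {w : ℝ → ℝ} (hw : Measurable w) (h0 : ∀ r, 0 < r → 0 ≤ w r)
    (hc : ContinuousOn w (Ioo 0 1))
    (hfin : ∀ ρ, 0 < ρ → ρ < 1 → ∫⁻ z in ball (0:ℂ) ρ, ENNReal.ofReal (w ‖z‖) ≠ ⊤)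
    (h : ∀ ρ a, 0 < ρ → ρ < 1 → 0 < a → a < 1 →
      ∫⁻ z in ball (0:ℂ) ρ, ENNReal.ofReal (w ‖z‖) ≤
        ∫⁻ z in mob a '' ball 0 ρ, ENNReal.ofReal (w ‖z‖)) :
    ∀ r s, 0 < r → r ≤ s → s < 1 → r ^ 4 * w r ≤ s ^ 4 * w s := by
  intro r s hr hrs hs1
  rcases hrs.eq_or_lt with heq | hlt
  · rw [heq]
  by_contra hcon
  push Not at hcon
  have hs0 : 0 < s := hr.trans hlt
  set T : ℝ := Real.log s - Real.log r with hTdef
  have hT : 0 < T := by
    have := Real.log_lt_log hr hlt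
    linarith
  obtain ⟨g, hg, hgeq⟩ := hasDerivAt_avg hw hc hT hs0 hs1
  have hneg : (HH w (Real.log s) - HH w (Real.log s - T)) * s⁻¹ < 0 := by
    apply mul_neg_of_neg_of_pos _ (inv_pos.mpr hs0)
    have e1 : Real.log s - T = Real.log r := by rw [hTdef]; ring
    rw [e1]
    simp only [HH, Real.exp_log hr, Real.exp_log hs0]
    linarith
  obtain ⟨δ, hδ, hd1, hd2⟩ := local_decrease hg hneg
  have hnn : ∀ τ, 0 ≤ HH w τ := fun τ => mul_nonneg (by positivity) (h0 _ (Real.exp_pos τ))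
  have hgs0 : 0 ≤ g s := by
    rw [hgeq s hs0 hs1]
    exact intervalIntegral.integral_nonneg (by linarith) (fun τ _ => hnn τ)
  -- finiteness
  have hexp : ∀ t ∈ Ioc (0:ℝ) T, 0 < Real.exp (-t) ∧ Real.exp (-t) < 1 := by
    intro t ht
    exact ⟨Real.exp_pos _, by rw [Real.exp_lt_one_iff]; linarith [ht.1]⟩
  have hball : ∀ t ∈ Ioc (0:ℝ) T, ENNReal.ofReal (Real.exp (-t) ^ 2) *
      ∫⁻ z in ball (0:ℂ) s, ENNReal.ofReal (w (Real.exp (-t) * ‖z‖)) =
      ∫⁻ z in ball (0:ℂ) (Real.exp (-t) * s), ENNReal.ofReal (w ‖z‖) := by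
    intro t ht
    rw [ball_mul (Real.exp_pos (-t)),
      area_scale (Real.exp_pos (-t)) measurableSet_ball (fun r => ENNReal.ofReal (w r))]
  have hfinv : ∫⁻ z in ball (0:ℂ) s, avg w T ‖z‖ ≠ ⊤ := by
    rw [lintegral_avg hw]
    have hle : ∫⁻ t in Ioc 0 T, ENNReal.ofReal (Real.exp (-4 * t)) *
        ∫⁻ z in ball (0:ℂ) s, ENNReal.ofReal (w (Real.exp (-t) * ‖z‖)) ≤
        ∫⁻ t in Ioc 0 T, ∫⁻ z in ball (0:ℂ) s, ENNReal.ofReal (w ‖z‖) := by
      apply setLIntegral_mono' measurableSet_Ioc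
      intro t ht
      have e1 : Real.exp (-4 * t) = Real.exp (-2 * t) * Real.exp (-t) ^ 2 := by
        rw [← Real.exp_nat_mul, ← Real.exp_add]
        congr 1
        push_cast
        ring
      rw [e1, ENNReal.ofReal_mul (by positivity), mul_assoc, hball t ht]
      have e2 : ENNReal.ofReal (Real.exp (-2 * t)) ≤ 1 := by
        rw [← ENNReal.ofReal_one]
        apply ENNReal.ofReal_le_ofReal
        rw [Real.exp_le_one_iff]
        linarith [ht.1]
      have e3 : ∫⁻ z in ball (0:ℂ) (Real.exp (-t) * s), ENNReal.ofReal (w ‖z‖) ≤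
          ∫⁻ z in ball (0:ℂ) s, ENNReal.ofReal (w ‖z‖) := by
        apply lintegral_mono_set
        apply ball_subset_ball
        nlinarith [(hexp t ht).2]
      calc _ ≤ 1 * ∫⁻ z in ball (0:ℂ) s, ENNReal.ofReal (w ‖z‖) := mul_le_mul' e2 e3
        _ = _ := one_mul _
    refine ne_top_of_le_ne_top ?_ hle
    rw [setLIntegral_const]
    exact ENNReal.mul_ne_top (hfin s hs0 hs1) (by simp)
  -- the strict inequality
  obtain ⟨a₀, ha0, ha01, hmob⟩ := mob_lt (measurable_avg hw T) hs0 hs1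
    (δ := min δ (1 - s)) (lt_min hδ (by linarith)) (by
      intro r' s' hr' hr1 hr2 hs1' hs2
      have hs3 : s' < s + δ := hs2.trans_le (by linarith [min_le_left δ (1 - s)])
      have hs4 : s' < 1 := hs2.trans_le (by linarith [min_le_right δ (1 - s)])
      have hr3 : s - δ < r' := lt_of_le_of_lt (by linarith [min_le_left δ (1 - s)]) hr1
      rw [avg_eq h0 hc hT hr' (hr2.trans hs1), avg_eq h0 hc hT (hs0.trans_le hs1') hs4,
        ← hgeq r' hr' (hr2.trans hs1), ← hgeq s' (hs0.trans_le hs1') hs4]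
      have h1 : g s < g r' := hd1 r' hr3 hr2
      have h2 : g s' ≤ g s := by
        rcases hs1'.eq_or_lt with h | h
        · rw [h]
        · exact (hd2 s' h hs3).le
      rw [ENNReal.ofReal_lt_ofReal_iff (by linarith)]
      linarith) hfinv
  set a : ℝ := min a₀ (Real.exp (-T)) / 2 with hadef
  have hmin : 0 < min a₀ (Real.exp (-T)) := lt_min ha0 (Real.exp_pos _)
  have ha : 0 < a := by positivity
  have ha2 : a < a₀ := by
    have := min_le_left a₀ (Real.exp (-T))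
    linarith
  have ha3 : a < Real.exp (-T) := by
    have := min_le_right a₀ (Real.exp (-T))
    linarith
  have hlt2 := hmob a ha ha2
  apply absurd hlt2
  rw [not_lt, lintegral_avg hw, lintegral_avg hw]
  apply setLIntegral_mono' measurableSet_Ioc
  intro t ht
  apply mul_le_mul_right
  have hk0 := (hexp t ht).1
  have hk1 := (hexp t ht).2
  have hkT : Real.exp (-T) ≤ Real.exp (-t) := Real.exp_le_exp.mpr (by linarith [ht.2])
  have key := h (Real.exp (-t) * s) (a / Real.exp (-t)) (by positivity) (by nlinarith)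
    (by positivity) (by rw [div_lt_one hk0]; linarith)
  rw [mob_mul hk0, mul_div_cancel₀ _ hk0.ne',
    area_scale hk0 (measurableSet_mob ha (ha2.trans ha01) hs1.le) (fun r => ENNReal.ofReal (w r)),
    ← hball t ht] at key
  exact (ENNReal.mul_le_mul_iff_right (by simp [hk0.ne']) ENNReal.ofReal_ne_top).mp key

/-! ### All radii -/

/-- The area of a plane set with respect to the radial density `w`. -/
noncomputable def areaW (w : ℝ → ℝ) (A : Set ℂ) : ℝ≥0∞ := ∫⁻ z in A, ENNReal.ofReal (w ‖z‖)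

/-- Holomorphic injective functions on `|z| < R` with `f 0 = 0`, `f' 0 = 1`. -/
structure NormUnivalent (R : ℝ) (f : ℂ → ℂ) : Prop where
  analytic : DifferentiableOn ℂ f (ball 0 R)
  univalent : InjOn f (ball 0 R)
  map_zero : f 0 = 0
  deriv_zero : deriv f 0 = 1

lemma areaW_ball (w : ℝ → ℝ) {κ : ℝ} (hκ : 0 < κ) (ρ : ℝ) :
    areaW w (ball 0 (κ * ρ)) = ENNReal.ofReal (κ ^ 2) * areaW (fun r => w (κ * r)) (ball 0 ρ) := by
  unfold areaW
  rw [ball_mul hκ, area_scale hκ measurableSet_ball (fun r => ENNReal.ofReal (w r))]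

lemma areaW_mob (w : ℝ → ℝ) {κ : ℝ} (hκ : 0 < κ) {ρ a : ℝ} (ha : 0 < a) (ha1 : a < 1)
    (hρ : ρ ≤ 1) :
    areaW w (mob (a / κ) '' ball 0 (κ * ρ)) =
      ENNReal.ofReal (κ ^ 2) * areaW (fun r => w (κ * r)) (mob a '' ball 0 ρ) := by
  unfold areaW
  rw [mob_mul hκ, mul_div_cancel₀ _ hκ.ne',
    area_scale hκ (measurableSet_mob ha ha1 hρ) (fun r => ENNReal.ofReal (w r))]

lemma sq_ne {κ : ℝ} (hκ : 0 < κ) : ENNReal.ofReal (κ ^ 2) ≠ 0 := by
  rw [Ne, ENNReal.ofReal_eq_zero, not_le]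
  positivity

theorem mono_all {w : ℝ → ℝ} (hw : Measurable w) (h0 : ∀ r, 0 < r → 0 ≤ w r)
    (hc : ContinuousOn w (Ioi 0)) (hfin : ∀ R, 0 < R → areaW w (ball 0 R) ≠ ⊤)
    (h : ∀ R a, 0 < R → 0 < a → a * R < 1 → areaW w (ball 0 R) ≤ areaW w (mob a '' ball 0 R)) :
    ∀ r s, 0 < r → r ≤ s → r ^ 4 * w r ≤ s ^ 4 * w s := by
  intro r s hr hrs
  have hs : 0 < s := hr.trans_le hrs
  set κ : ℝ := 2 * s with hκdef
  have hκ : 0 < κ := by positivity
  have key := mono_unit (w := fun r => w (κ * r)) (hw.comp (by fun_prop))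
    (fun r hr => h0 _ (by positivity))
    (hc.comp (by fun_prop) (fun x hx => mul_pos hκ hx.1))
    (by
      intro ρ hρ hρ1 htop
      have h1 := areaW_ball w hκ ρ
      apply hfin (κ * ρ) (by positivity)
      rw [h1]
      unfold areaW
      rw [htop]
      exact ENNReal.mul_top (sq_ne hκ))
    (by
      intro ρ a hρ hρ1 ha ha1
      have h1 := h (κ * ρ) (a / κ) (by positivity) (by positivity) (by
        have : a / κ * (κ * ρ) = a * ρ := by field_simp
        rw [this]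
        nlinarith)
      rw [areaW_ball w hκ, areaW_mob w hκ ha ha1 hρ1.le] at h1
      exact (ENNReal.mul_le_mul_iff_right (sq_ne hκ) ENNReal.ofReal_ne_top).mp h1)
    (r / κ) (s / κ) (by positivity) (by gcongr)
    (by rw [hκdef, div_lt_one (by positivity)]; linarith)
  simp only [mul_div_cancel₀ _ hκ.ne', div_pow] at key
  have h4 : 0 < κ ^ 4 := by positivity
  have e1 : r ^ 4 * w r = κ ^ 4 * (r ^ 4 / κ ^ 4 * w r) := by field_simp
  have e2 : s ^ 4 * w s = κ ^ 4 * (s ^ 4 / κ ^ 4 * w s) := by field_simp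
  rw [e1, e2]
  exact mul_le_mul_of_nonneg_left key h4.le

lemma mob_norm {R a : ℝ} (ha : 0 < a) (haR : a * R < 1) :
    NormUnivalent R (mob a) := by
  have hne : ∀ z ∈ ball (0:ℂ) R, (1 - a * z : ℂ) ≠ 0 := by
    intro z hz h
    have hz' : ‖z‖ < R := by simpa using hz
    have h1 : (a : ℂ) * z = 1 := by linear_combination -h
    have h2 : ‖(a : ℂ) * z‖ = 1 := by rw [h1]; simp
    rw [norm_mul, Complex.norm_real, Real.norm_of_nonneg ha.le] at h2
    nlinarith [norm_nonneg z]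
  refine ⟨?_, ?_, mob_zero a, mob_deriv a⟩
  · intro z hz
    have h1 : DifferentiableAt ℂ (fun z : ℂ => z) z := differentiableAt_id
    have h2 : DifferentiableAt ℂ (fun z : ℂ => 1 - (a:ℂ) * z) z := by fun_prop
    exact (h1.div h2 (hne z hz)).differentiableWithinAt
  · intro u hu v hv h
    simp only [mob] at h
    rw [div_eq_div_iff (hne u hu) (hne v hv)] at h
    linear_combination h

lemma classS_of_norm {R : ℝ} (hR : 0 < R) {f : ℂ → ℂ} (hf : NormUnivalent R f) :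
    ClassS (fun z => (R:ℂ)⁻¹ * f (R * z)) := by
  have hρ : (R:ℂ) ≠ 0 := by exact_mod_cast hR.ne'
  have hmem : ∀ z ∈ ball (0:ℂ) 1, (R:ℂ) * z ∈ ball (0:ℂ) R := by
    intro z hz
    simp only [mem_ball, dist_zero_right] at hz ⊢
    rw [norm_mul, norm_real, Real.norm_eq_abs, abs_of_pos hR]
    nlinarith [norm_nonneg z]
  have hder : ∀ z ∈ ball (0:ℂ) 1,
      HasDerivAt (fun z => (R:ℂ)⁻¹ * f (R * z)) (deriv f (R * z)) z := by
    intro z hz
    have h2 : HasDerivAt f (deriv f (R * z)) (R * z) :=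
      (hf.analytic.differentiableAt (isOpen_ball.mem_nhds (hmem z hz))).hasDerivAt
    have h3 : HasDerivAt (fun z : ℂ => (R:ℂ) * z) (R:ℂ) z := by
      simpa using (hasDerivAt_id z).const_mul (R:ℂ)
    have h4 := (h2.comp z h3).const_mul (R:ℂ)⁻¹
    have h5 : (R:ℂ)⁻¹ * (deriv f (R * z) * R) = deriv f (R * z) := by field_simp
    rw [h5] at h4
    exact h4
  refine ⟨fun z hz => (hder z hz).differentiableAt.differentiableWithinAt, ?_, ?_, ?_⟩
  · intro a ha b hb h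
    have h2 : f (R * a) = f (R * b) := mul_left_cancel₀ (inv_ne_zero hρ) h
    exact mul_left_cancel₀ hρ (hf.univalent (hmem a ha) (hmem b hb) h2)
  · simp [hf.map_zero]
  · rw [(hder 0 (by simp)).deriv, mul_zero, hf.deriv_zero]

/-- Sufficiency, for all radii. -/
lemma suff {w : ℝ → ℝ} (h0 : ∀ r, 0 < r → 0 ≤ w r)
    (hG : ∀ r s, 0 < r → r ≤ s → r ^ 4 * w r ≤ s ^ 4 * w s)
    {R : ℝ} (hR : 0 < R) {f : ℂ → ℂ} (hf : NormUnivalent R f) :
    areaW w (ball 0 R) ≤ areaW w (f '' ball 0 R) ∧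
    ((∀ r s, 0 < r → r < s → r ^ 4 * w r < s ^ 4 * w s) → areaW w (ball 0 R) ≠ ⊤ →
      areaW w (f '' ball 0 R) = areaW w (ball 0 R) → ∀ z ∈ ball (0:ℂ) R, f z = z) := by
  have hg := classS_of_norm hR hf
  set v : ℝ → ℝ≥0∞ := fun r => ENNReal.ofReal (w (R * r)) with hv
  have hvG : ∀ r, 0 < r → ENNReal.ofReal (r ^ 4) * v r =
      ENNReal.ofReal ((R ^ 4)⁻¹ * ((R * r) ^ 4 * w (R * r))) := by
    intro r hr
    simp only [hv]
    rw [← ENNReal.ofReal_mul (by positivity)]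
    congr 1
    field_simp
  have hR4 : 0 < (R ^ 4)⁻¹ := by positivity
  have hgood : Pool.Agent.Results.MP_ad51a3_an.RadialWeights.GoodWeight v := by
    intro r s hr hrs
    rw [hvG r hr, hvG s (hr.trans_le hrs)]
    apply ENNReal.ofReal_le_ofReal
    exact mul_le_mul_of_nonneg_left (hG _ _ (by positivity) (by gcongr)) hR4.le
  have m := main_unit hg hgood
  have i1 : areaW w (f '' ball 0 R) = ENNReal.ofReal (R ^ 2) *
      ∫⁻ z in (fun z => (R:ℂ)⁻¹ * f (R * z)) '' ball 0 1, v ‖z‖ := by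
    unfold areaW
    rw [Pool.Agent.Results.MP_ad51a3_an.RadialWeights.image_scale f hR,
      area_scale hR hg.isOpen_image.measurableSet (fun r => ENNReal.ofReal (w r))]
  have i2 : areaW w (ball 0 R) = ENNReal.ofReal (R ^ 2) * ∫⁻ z in ball (0:ℂ) 1, v ‖z‖ := by
    have := areaW_ball w hR 1
    rw [mul_one] at this
    exact this
  rw [i1, i2]
  refine ⟨mul_le_mul_right m.1 _, fun hst hfin heq z hz => ?_⟩
  have hfin' : ∫⁻ z in ball (0:ℂ) 1, v ‖z‖ ≠ ⊤ := by
    intro htop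
    rw [htop] at hfin
    exact hfin (ENNReal.mul_top (sq_ne hR))
  have heq' := (ENNReal.mul_right_inj (sq_ne hR) ENNReal.ofReal_ne_top).mp heq
  have hid := m.2 (Or.inl (by
    intro r hr
    have h1 := hvG 1 one_pos
    simp only [one_pow, ENNReal.ofReal_one, one_mul] at h1
    rw [h1, hvG r (by linarith)]
    have h2 := hst (R * 1) (R * r) (by positivity) (by gcongr)
    rw [mul_one] at h2 ⊢
    have hnn : 0 ≤ R ^ 4 * w R := mul_nonneg (by positivity) (h0 R hR)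
    rw [ENNReal.ofReal_lt_ofReal_iff_of_nonneg (by positivity)]
    exact mul_lt_mul_of_pos_left h2 hR4)) hfin' heq'
  have hρ : (R:ℂ) ≠ 0 := by exact_mod_cast hR.ne'
  have hz' : ‖z‖ < R := by simpa using hz
  have h3 := hid ((R:ℂ)⁻¹ * z) (by
    simp only [mem_ball, dist_zero_right]
    rw [norm_mul, norm_inv, norm_real, Real.norm_eq_abs, abs_of_pos hR, inv_mul_lt_iff₀ hR, mul_one]
    exact hz')
  have h4 : (R:ℂ) * ((R:ℂ)⁻¹ * z) = z := by field_simp
  simp only [h4] at h3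
  exact mul_left_cancel₀ (inv_ne_zero hρ) h3

theorem strict_all {w : ℝ → ℝ} (hw : Measurable w) (h0 : ∀ r, 0 < r → 0 ≤ w r)
    (hc : ContinuousOn w (Ioi 0)) (hfin : ∀ R, 0 < R → areaW w (ball 0 R) ≠ ⊤)
    (h : ∀ R a, 0 < R → 0 < a → a * R < 1 → areaW w (ball 0 R) < areaW w (mob a '' ball 0 R)) :
    ∀ r s, 0 < r → r < s → r ^ 4 * w r < s ^ 4 * w s := by
  have hmono := mono_all hw h0 hc hfin (fun R a hR ha haR => (h R a hR ha haR).le)
  intro r s hr hrs
  by_contra hcon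
  push Not at hcon
  have hs : 0 < s := hr.trans hrs
  set κ : ℝ := 2 * s with hκdef
  have hκ : 0 < κ := by positivity
  set ρ : ℝ := (r + s) / (2 * κ) with hρdef
  set δ : ℝ := (s - r) / (2 * κ) with hδdef
  have hρ : 0 < ρ := by positivity
  have hδ : 0 < δ := div_pos (by linarith) (by positivity)
  have hρ1 : ρ < 1 := by
    rw [hρdef, div_lt_one (by positivity), hκdef]
    linarith
  have hκρ : κ * (ρ - δ) = r := by
    rw [hρdef, hδdef]
    field_simp
    ring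
  have hκρ' : κ * (ρ + δ) = s := by
    rw [hρdef, hδdef]
    field_simp
    ring
  have hconst : ∀ x, ρ - δ < x → x < ρ + δ → (κ * x) ^ 4 * w (κ * x) = r ^ 4 * w r := by
    intro x h1 h2
    have h3 : r < κ * x := by
      rw [← hκρ]
      exact (mul_lt_mul_iff_right₀ hκ).mpr h1
    have h4 : κ * x < s := by
      rw [← hκρ']
      exact (mul_lt_mul_iff_right₀ hκ).mpr h2
    have h5 := hmono r (κ * x) hr h3.le
    have h6 := hmono (κ * x) s (hr.trans h3) h4.le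
    linarith
  have hval : ∀ x, ρ - δ < x → x < ρ + δ → ENNReal.ofReal (x ^ 4) * ENNReal.ofReal (w (κ * x)) =
      ENNReal.ofReal ((κ ^ 4)⁻¹ * (r ^ 4 * w r)) := by
    intro x h1 h2
    rw [← hconst x h1 h2, ← ENNReal.ofReal_mul (by positivity)]
    congr 1
    field_simp
  set a : ℝ := min (δ / 2) (1 / 2) / 2 with hadef
  have hmin : 0 < min (δ / 2) (1 / 2) := lt_min (by positivity) (by norm_num)
  have ha : 0 < a := by positivity
  have ha1 : a < δ / 2 := by
    have := min_le_left (δ / 2) (1 / 2)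
    linarith
  have ha2 : a < 1 / 2 := by
    have := min_le_right (δ / 2) (1 / 2)
    linarith
  have hEq := mob_eq (w := fun x => ENNReal.ofReal (w (κ * x))) hρ hρ1 hδ (by
    intro x y _ h1 h2 h3 h4
    rw [hval y (by linarith) h4, hval x h1 (by linarith)]) ha ha1 ha2
  have h1 := h (κ * ρ) (a / κ) (by positivity) (by positivity) (by
    have : a / κ * (κ * ρ) = a * ρ := by field_simp
    rw [this]
    nlinarith)
  rw [areaW_ball w hκ, areaW_mob w hκ ha (by linarith) hρ1.le] at h1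
  unfold areaW at h1
  rw [hEq] at h1
  exact lt_irrefl _ h1

lemma mob_ne {R a : ℝ} (hR : 0 < R) (ha : 0 < a) (haR : a * R < 1) :
    ∃ z ∈ ball (0:ℂ) R, mob a z ≠ z := by
  refine ⟨((R / 2 : ℝ) : ℂ), ?_, ?_⟩
  · simp only [mem_ball, dist_zero_right]
    rw [Complex.norm_real, Real.norm_of_nonneg (by positivity)]
    linarith
  · intro h
    have h1 : (1 - (a:ℂ) * ((R / 2 : ℝ) : ℂ)) = ((1 - a * (R / 2) : ℝ) : ℂ) := by push_cast; ring
    simp only [mob] at h
    rw [h1, ← Complex.ofReal_div, Complex.ofReal_inj] at h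
    have h2 : 0 < 1 - a * (R / 2) := by nlinarith
    rw [div_eq_iff h2.ne'] at h
    have : 0 < a * R * R := by positivity
    nlinarith

/-- **The radial densities for which the identity is extremal.**
(1) The least spherical area of `f (|z| < 1)` over the class `S` is `2 π`, it is attained by the
identity only.
(2) Let `w` be a radial density (measurable, nonnegative and continuous for `r > 0`, with finite
area of all discs `|z| < R`). The following are equivalent: for all `R > 0` the identity minimises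
the `w`-area of `f (|z| < R)` among all holomorphic injective functions `f` on `|z| < R` with
`f 0 = 0`, `f' 0 = 1`; the same for the functions `z / (1 - a z)`, `0 < a < 1 / R`, only; the
function `r ^ 4 * w r` is nondecreasing.
(3) For these `w` the following are equivalent: for all `R > 0` the identity is the only minimiser
in (2); the `w`-area is strictly larger for the functions `z / (1 - a z)`, `0 < a < 1 / R`; the
function `r ^ 4 * w r` is strictly increasing. -/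
theorem result :
    (IsLeast {a : ℝ≥0∞ | ∃ f : ℂ → ℂ, (DifferentiableOn ℂ f (ball 0 1) ∧ InjOn f (ball 0 1) ∧
        f 0 = 0 ∧ deriv f 0 = 1) ∧
        a = ∫⁻ z in f '' ball 0 1, ENNReal.ofReal (4 / (1 + ‖z‖ ^ 2) ^ 2)}
      (ENNReal.ofReal (2 * π)) ∧
    ∀ f : ℂ → ℂ, DifferentiableOn ℂ f (ball 0 1) → InjOn f (ball 0 1) →
      f 0 = 0 → deriv f 0 = 1 →
      (∫⁻ z in f '' ball 0 1, ENNReal.ofReal (4 / (1 + ‖z‖ ^ 2) ^ 2) = ENNReal.ofReal (2 * π) ↔
        ∀ z ∈ ball (0:ℂ) 1, f z = z)) ∧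
    ∀ w : ℝ → ℝ, Measurable w → (∀ r : ℝ, 0 < r → 0 ≤ w r) → ContinuousOn w (Ioi 0) →
      (∀ R : ℝ, 0 < R → areaW w (ball 0 R) ≠ ⊤) →
      List.TFAE [
        ∀ R : ℝ, 0 < R → ∀ f : ℂ → ℂ, NormUnivalent R f → areaW w (ball 0 R) ≤ areaW w (f '' ball 0 R),
        ∀ R a : ℝ, 0 < R → 0 < a → a * R < 1 →
          areaW w (ball 0 R) ≤ areaW w ((fun z : ℂ => z / (1 - (a : ℂ) * z)) '' ball 0 R),
        ∀ r s : ℝ, 0 < r → r ≤ s → r ^ 4 * w r ≤ s ^ 4 * w s] ∧
      List.TFAE [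
        ∀ R : ℝ, 0 < R → ∀ f : ℂ → ℂ, NormUnivalent R f → (∃ z ∈ ball (0:ℂ) R, f z ≠ z) →
          areaW w (ball 0 R) < areaW w (f '' ball 0 R),
        ∀ R a : ℝ, 0 < R → 0 < a → a * R < 1 →
          areaW w (ball 0 R) < areaW w ((fun z : ℂ => z / (1 - (a : ℂ) * z)) '' ball 0 R),
        ∀ r s : ℝ, 0 < r → r < s → r ^ 4 * w r < s ^ 4 * w s] := by
  refine ⟨⟨RadialWeights.result.1, fun f h1 h2 h3 h4 =>
    (RadialWeights.result.2 f h1 h2 h3 h4).1⟩, ?_⟩
  intro w hw h0 hc hfin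
  constructor
  · tfae_have 1 → 2 := fun h R a hR ha haR => h R hR (mob a) (mob_norm ha haR)
    tfae_have 2 → 3 := fun h => mono_all hw h0 hc hfin h
    tfae_have 3 → 1 := fun h R hR f hf => (suff h0 h hR hf).1
    tfae_finish
  · tfae_have 1 → 2 := fun h R a hR ha haR =>
      h R hR (mob a) (mob_norm ha haR) (mob_ne hR ha haR)
    tfae_have 2 → 3 := fun h => strict_all hw h0 hc hfin h
    tfae_have 3 → 1 := by
      rintro h R hR f hf ⟨z, hz, hfz⟩
      have hmono : ∀ r s, 0 < r → r ≤ s → r ^ 4 * w r ≤ s ^ 4 * w s := by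
        intro r s hr hrs
        rcases hrs.eq_or_lt with h1 | h1
        · rw [h1]
        · exact (h r s hr h1).le
      obtain ⟨m1, m2⟩ := suff h0 hmono hR hf
      refine lt_of_le_of_ne m1 (fun heq => hfz (m2 h (hfin R hR) heq.symm z hz))
    tfae_finish

end Pool.Agent.Results.MP_ad51a3_an.DensityCharacterisation
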